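import Mathlib
import Pool.Agent.Lib.helper13.PermList
import Pool.Agent.Lib.helper13.PermDP

set_option autoImplicit false

namespace Pool.Agent.Results.MP_094caa_co.Counter

open Finset H13Perm

/-- The number of inversions. -/
def inv {n : ℕ} (σ : Equiv.Perm (Fin n)) : ℕ :=
  (univ.filter fun p : Fin n × Fin n => p.1 < p.2 ∧ σ p.2 < σ p.1).card

/-- The number of consecutive occurrences of the pattern `τ` in `σ`; `i` is the starting
position, counted from `0`. -/
def occ {k n : ℕ} (τ : Equiv.Perm (Fin k)) (σ : Equiv.Perm (Fin n)) : ℕ :=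
  ((range (n + 1)).filter fun i => ∃ h : i + k ≤ n, ∀ a b : Fin k,
    (σ ⟨i + a, by omega⟩ < σ ⟨i + b, by omega⟩ ↔ τ a < τ b)).card

/-- The expected number of occurrences of `τ` in a uniformly random permutation of `n` letters
with `m` inversions. -/
def expect {k : ℕ} (τ : Equiv.Perm (Fin k)) (n m : ℕ) : ℚ :=
  (∑ σ ∈ univ.filter (fun σ : Equiv.Perm (Fin n) => inv σ = m), (occ τ σ : ℚ)) /
    (univ.filter (fun σ : Equiv.Perm (Fin n) => inv σ = m)).card

def pat : Equiv.Perm (Fin 5) := ⟨![0, 2, 4, 3, 1], ![0, 4, 1, 3, 2], by decide, by decide⟩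

def invL (l : List ℕ) : ℕ := V (fun a b => Nat.blt b a) l

def ch (l : List ℕ) (i : ℕ) : ℕ := if l.getD i 0 < l.getD (i + 4) 0 ∧
  l.getD (i + 4) 0 < l.getD (i + 1) 0 ∧ l.getD (i + 1) 0 < l.getD (i + 3) 0 ∧
  l.getD (i + 3) 0 < l.getD (i + 2) 0 then 1 else 0

def F (m : ℕ) (l : List ℕ) : ℕ × ℕ := if invL l = m then (ch l 0 + ch l 1 + ch l 2, 1) else 0

theorem inv_eq (σ : Equiv.Perm (Fin 7)) : inv σ = invL (word σ) := by
  rw [inv, invL, word, V_ofFn]
  simp only [Nat.blt_eq, Fin.val_fin_lt]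

theorem pat_iff (f : Fin 5 → ℕ) : (∀ a b, f a < f b ↔ pat a < pat b) ↔
    f 0 < f 4 ∧ f 4 < f 1 ∧ f 1 < f 3 ∧ f 3 < f 2 := by
  constructor
  · exact fun h => ⟨(h _ _).2 (by decide), (h _ _).2 (by decide), (h _ _).2 (by decide),
      (h _ _).2 (by decide)⟩
  · rintro ⟨h1, h2, h3, h4⟩ a b
    fin_cases a <;> fin_cases b <;> simp [pat] at * <;> omega

theorem occ_eq (σ : Equiv.Perm (Fin 7)) : occ pat σ = ∑ i : Fin 3, ch (word σ) i := by
  rw [occ, card_filter, ← sum_subset (show range 3 ⊆ range (7 + 1) by decide) fun i _ hi => by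
    rw [if_neg]; rintro ⟨h, -⟩; simp at hi; omega]
  rw [← Fin.sum_univ_eq_sum_range (fun i => if ∃ h : i + 5 ≤ 7, ∀ a b : Fin 5,
    (σ ⟨i + a, by omega⟩ < σ ⟨i + b, by omega⟩ ↔ pat a < pat b) then 1 else 0)]
  refine sum_congr rfl fun i _ => if_congr ?_ rfl rfl
  have := pat_iff fun a => (word σ).getD (i + a) 0
  refine Iff.trans ?_ this
  rw [exists_prop_of_true (by omega)]
  refine forall₂_congr fun a b => iff_congr ?_ Iff.rfl
  rw [Fin.lt_def, ← word_getD, ← word_getD]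

theorem expect_eq (m : ℕ) : expect pat 7 m =
    (∑ σ : Equiv.Perm (Fin 7), F m (word σ)).1 / (∑ σ : Equiv.Perm (Fin 7), F m (word σ)).2 := by
  rw [expect, card_filter, sum_filter, Prod.fst_sum, Prod.snd_sum]
  simp only [inv_eq, occ_eq, F, Fin.sum_univ_three, apply_ite Prod.fst, apply_ite Prod.snd]
  push_cast
  rfl

theorem values : ∑ σ : Equiv.Perm (Fin 7), (F 5 (word σ), F 8 (word σ), F 9 (word σ)) =
    ((6, 169), (15, 455), (18, 531)) :=
  (sum_word 7 fun l => (F 5 l, F 8 l, F 9 l)).trans (by decide +kernel)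

theorem result : ∃ (k n : ℕ) (τ : Equiv.Perm (Fin k)) (a b c : ℕ), 1 ≤ k ∧ k + 2 ≤ n ∧ a < b ∧
    b < c ∧ c ≤ n.choose 2 ∧ expect τ n b < expect τ n a ∧ expect τ n b < expect τ n c := by
  have h := values
  rw [Prod.ext_iff, Prod.fst_sum, Prod.snd_sum, Prod.ext_iff (y := ((15, 455), (18, 531))),
    Prod.fst_sum, Prod.snd_sum] at h
  obtain ⟨h1, h2, h3⟩ := h
  simp only at h1 h2 h3
  refine ⟨5, 7, pat, 5, 8, 9, by norm_num, by norm_num, by norm_num, by norm_num, by decide, ?_, ?_⟩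
  · rw [expect_eq, expect_eq, h1, h2]; norm_num
  · rw [expect_eq, expect_eq, h2, h3]; norm_num

end Pool.Agent.Results.MP_094caa_co.Counter
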